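import Pool.Agent.Lib.MP_629a14_nt.Ts.MannLow
import Pool.Agent.Lib.MP_629a14_nt.Ts.MannUp
import Pool.Agent.Lib.MP_629a14_nt.Ts.Mem
import Pool.Agent.Lib.MP_629a14_nt.Ts.Sidon
import Pool.Agent.Lib.MP_629a14_nt.Ts.Poly
import Pool.Agent.Lib.MP_629a14_nt.Mn.Final

/-!
Mann's theorem for the primes, relative to thin sets: in every equidistributed tame sequence of
finite sets, the least proportion of the sums of two sets of primes with given lower densities in the
residue classes.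
-/

set_option autoImplicit false

namespace Pool.Agent.Results.MP_629a14_nt.MannPrimes

open Filter Topology

/-- The number of ordered representations `n = p + q` with primes `p ∈ A`, `q ∈ B`. -/
noncomputable def repsIn (A B : Set ℕ) (n : ℕ) : ℕ :=
  Set.ncard {p : ℕ | p ≤ n ∧ p.Prime ∧ (n - p).Prime ∧ p ∈ A ∧ n - p ∈ B}

/-- The number of primes `p ≤ x` in `A` with `p ≡ a (mod q)`. -/
noncomputable def primesIn (A : Set ℕ) (q a x : ℕ) : ℕ :=
  Set.ncard {p : ℕ | p ≤ x ∧ p.Prime ∧ p ∈ A ∧ p ≡ a [MOD q]}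

/-- For every multiple `q` of `W` and every `a` coprime to `q` the primes of `A` in the class `a`
modulo `q` have lower density at least `u (a mod W)` relative to all primes of this class. -/
def LowerProfile (A : Set ℕ) (W : ℕ) (u : ℕ → ℝ) : Prop :=
  ∀ q a : ℕ, 1 ≤ q → W ∣ q → a.Coprime q →
    u (a % W) ≤ liminf (fun x : ℕ => (primesIn A q a x : ℝ) / primesIn Set.univ q a x) atTop

/-- The comparison function `n^2 / (φ(n) log^2 n)`. -/
noncomputable def size (n : ℕ) : ℝ := (n : ℝ) ^ 2 / ((n.totient : ℝ) * Real.log n ^ 2)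

/-- The `n ≡ c (mod W)` with `1 ≤ n ≤ N`. -/
def progr (W c N : ℕ) : Finset ℕ := (Finset.Icc 1 N).filter (fun n => n ≡ c [MOD W])

/-- The mean of `exp (2 π i t n)` over the elements `n` of the finite set `S`. -/
noncomputable def mean (S : Finset ℕ) (t : ℝ) : ℂ :=
  (∑ n ∈ S, Complex.exp (2 * Real.pi * (t * n) * Complex.I)) / S.card

/-- Every `S N` consists of numbers `n ≡ c (mod W)` in `[1, N]`; for large `N` it is not empty and the
means of `exp (2 π i t n)` over `S N` and over all these numbers differ by `o(1)`, uniformly in the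
real number `t`. -/
def Equidistributed (W c : ℕ) (S : ℕ → Finset ℕ) : Prop :=
  (∀ N : ℕ, S N ⊆ progr W c N) ∧ ∀ ε : ℝ, 0 < ε → ∀ᶠ N : ℕ in atTop, (S N).Nonempty ∧
    ∀ t : ℝ, ‖mean (S N) t - mean (progr W c N) t‖ ≤ ε

/-- There are `s ≥ 1` and `K` such that for every `η > 0` and all large `N` the sum of the `2 s`-th
powers of those of the numbers `|mean (S N) (h / (2 N + 1))|`, `0 ≤ h ≤ 2 N`, which are larger than
`η / log^2 N` is at most `K`. -/
def Tame (S : ℕ → Finset ℕ) : Prop :=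
  ∃ s : ℕ, 1 ≤ s ∧ ∃ K : ℝ, ∀ η : ℝ, 0 < η → ∀ᶠ N : ℕ in atTop,
    ∑ h ∈ (Finset.range (2 * N + 1)).filter (fun h : ℕ =>
      η / Real.log N ^ 2 < ‖mean (S N) ((h : ℝ) / (2 * N + 1))‖),
      ‖mean (S N) ((h : ℝ) / (2 * N + 1))‖ ^ (2 * s) ≤ K

/-- The lower limit, for `N → ∞`, of the proportion of the elements of `S N` which lie in `T`. -/
noncomputable def share (S : ℕ → Finset ℕ) (T : Set ℕ) : ℝ :=
  liminf (fun N : ℕ => (Set.ncard {n : ℕ | n ∈ S N ∧ n ∈ T} : ℝ) / (S N).card) atTop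

/-- The `n` with at least one representation. -/
def sums (A B : Set ℕ) : Set ℕ := {n : ℕ | 0 < repsIn A B n}

/-- The `n` with at least `κ * size n` representations. -/
def rich (κ : ℝ) (A B : Set ℕ) : Set ℕ := {n : ℕ | κ * size n ≤ repsIn A B n}

/-- The infimum of the share of `sums A B` in `S` over all sets `A`, `B` with lower profiles
`u`, `v`. -/
noncomputable def leastSum (S : ℕ → Finset ℕ) (W : ℕ) (u v : ℕ → ℝ) : ℝ :=
  sInf {d : ℝ | ∃ A B : Set ℕ, LowerProfile A W u ∧ LowerProfile B W v ∧ d = share S (sums A B)}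

/-- The infimum of the share of `rich κ A B` in `S` over the same pairs. -/
noncomputable def leastRich (κ : ℝ) (S : ℕ → Finset ℕ) (W : ℕ) (u v : ℕ → ℝ) : ℝ :=
  sInf {d : ℝ | ∃ A B : Set ℕ, LowerProfile A W u ∧ LowerProfile B W v ∧ d = share S (rich κ A B)}

/-- The residues `r` modulo `W` such that `r` and `c - r` are coprime to `W`. -/
def admissible (W c : ℕ) : Finset ℕ :=
  (Finset.range W).filter (fun r => r.Coprime W ∧ (c + W - r).Coprime W)

/-- The largest value of `min 1 (u r + v (c - r))` over the admissible `r` for which `u r` and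
`v (c - r)` are positive; `0` if there is no such `r`. -/
noncomputable def best (W c : ℕ) (u v : ℕ → ℝ) : ℝ :=
  sSup {m : ℝ | ∃ r ∈ admissible W c, 0 < u r ∧ 0 < v ((c + W - r) % W) ∧
    m = min 1 (u r + v ((c + W - r) % W))}

/-- The set of the numbers `p` such that the distance of `√2 p` from the nearest integer is less
than `u (p mod W) / 2`. -/
def star (W : ℕ) (u : ℕ → ℝ) : Set ℕ :=
  {p : ℕ | |Real.sqrt 2 * p - round (Real.sqrt 2 * p)| < u (p % W) / 2}

/-- All sums of two elements of `A` are different, apart from the order. -/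
def Sidon (A : Finset ℕ) : Prop :=
  ∀ a ∈ A, ∀ b ∈ A, ∀ c ∈ A, ∀ d ∈ A, a + b = c + d → (a = c ∧ b = d) ∨ (a = d ∧ b = c)

/-- The number of pairs of `s`-tuples of elements of `A` with equal sums. -/
def energy (A : Finset ℕ) (s : ℕ) : ℕ :=
  ((Fintype.piFinset (fun _ : Fin s => A) ×ˢ Fintype.piFinset (fun _ : Fin s => A)).filter
    (fun xy => ∑ j, xy.1 j = ∑ j, xy.2 j)).card

/-- `⌊(log N)^(22/5)⌋`. -/
noncomputable def bound (N : ℕ) : ℕ := ⌊Real.log N ^ (22 / 5 : ℝ)⌋₊

open Classical in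
/-- The `n ≡ c (mod W)` in `[1, N]` such that, with `M` the number of all of them, the remainder of
`p ⌊(n - 1)/W⌋` modulo `M` is one of `1, ..., bound N` for some prime `p` in
`(bound N, 4 bound N]` which does not divide `M`. -/
noncomputable def thin (W c N : ℕ) : Finset ℕ :=
  (progr W c N).filter (fun n => ∃ p ∈ Finset.Ioc (bound N) (4 * bound N), p.Prime ∧
    ¬ p ∣ (progr W c N).card ∧ 1 ≤ (p * ((n - 1) / W)) % (progr W c N).card ∧
    (p * ((n - 1) / W)) % (progr W c N).card ≤ bound N)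

private theorem reps_eq (A B : Set ℕ) (n : ℕ) :
    repsIn A B n = Pool.Agent.Lib.MP_629a14_nt.Sm.repsIn A B n := by
  classical
  unfold repsIn Pool.Agent.Lib.MP_629a14_nt.Sm.repsIn
  rw [← Set.ncard_coe_finset]
  congr 1
  ext p
  simp only [Set.mem_ofPred_eq, Finset.coe_filter, Finset.mem_range]
  constructor
  · rintro ⟨h1, h2⟩
    exact ⟨by omega, h2⟩
  · rintro ⟨h1, h2⟩
    exact ⟨by omega, h2⟩

private theorem mean_eq (S : Finset ℕ) (t : ℝ) :
    mean S t = Pool.Agent.Lib.MP_629a14_nt.Ts.mu S t := by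
  unfold mean Pool.Agent.Lib.MP_629a14_nt.Ts.mu
  congr 1
  refine Finset.sum_congr rfl fun n _ => ?_
  unfold Pool.Agent.Lib.MP_629a14_nt.ee
  push_cast
  rfl

private theorem equi_iff (W c : ℕ) (S : ℕ → Finset ℕ) :
    Equidistributed W c S ↔ Pool.Agent.Lib.MP_629a14_nt.Ts.Equi W c S := by
  unfold Equidistributed Pool.Agent.Lib.MP_629a14_nt.Ts.Equi
  simp only [mean_eq]
  rfl

private theorem tame_iff (S : ℕ → Finset ℕ) :
    Tame S ↔ Pool.Agent.Lib.MP_629a14_nt.Ts.Tm S := by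
  unfold Tame Pool.Agent.Lib.MP_629a14_nt.Ts.Tm
  simp only [mean_eq]

private theorem share_eq (S : ℕ → Finset ℕ) (T : Set ℕ) :
    share S T = Pool.Agent.Lib.MP_629a14_nt.Ts.share S T := rfl

private theorem sums_eq (A B : Set ℕ) :
    sums A B = {n : ℕ | 0 < Pool.Agent.Lib.MP_629a14_nt.Sm.repsIn A B n} := by
  unfold sums
  simp only [reps_eq]

private theorem rich_eq (κ : ℝ) (A B : Set ℕ) :
    rich κ A B = {n : ℕ | κ * Pool.Agent.Lib.MP_629a14_nt.Kp.R.Mp.size n ≤
      Pool.Agent.Lib.MP_629a14_nt.Sm.repsIn A B n} := by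
  unfold rich
  simp only [reps_eq]
  rfl

private theorem best_eq (W c : ℕ) (u v : ℕ → ℝ) :
    best W c u v = Pool.Agent.Lib.MP_629a14_nt.Kp.R.Mp.best W c u v := rfl

private theorem ratio_bdd (A : Set ℕ) (q a x : ℕ) :
    0 ≤ (primesIn A q a x : ℝ) / primesIn Set.univ q a x ∧
      (primesIn A q a x : ℝ) / primesIn Set.univ q a x ≤ 1 := by
  refine ⟨div_nonneg (Nat.cast_nonneg _) (Nat.cast_nonneg _),
    div_le_one_of_le₀ ?_ (Nat.cast_nonneg _)⟩
  have h : primesIn A q a x ≤ primesIn Set.univ q a x := by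
    refine Set.ncard_le_ncard (fun p hp => ?_) ((Set.finite_Iic x).subset fun p hp => hp.1)
    exact ⟨hp.1, hp.2.1, Set.mem_univ _, hp.2.2.2⟩
  exact_mod_cast h

private theorem low_of {A : Set ℕ} {W : ℕ} {u : ℕ → ℝ} (h : LowerProfile A W u) :
    Pool.Agent.Lib.MP_629a14_nt.Kp.R.Mp.Low A W u := by
  intro q a hq hWq ha ε hε
  have h1 := h q a hq hWq ha
  have h2 : u (a % W) - ε <
      liminf (fun x : ℕ => (primesIn A q a x : ℝ) / primesIn Set.univ q a x) atTop := by
    linarith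
  have h3 := eventually_lt_of_lt_liminf h2
    (isBoundedUnder_of ⟨0, fun x => (ratio_bdd A q a x).1⟩)
  filter_upwards [h3] with x hx
  show (u (a % W) - ε) * (primesIn Set.univ q a x : ℝ) ≤ primesIn A q a x
  rcases Nat.eq_zero_or_pos (primesIn Set.univ q a x) with h4 | h4
  · rw [h4, Nat.cast_zero, mul_zero]
    exact Nat.cast_nonneg _
  · have h5 : (0 : ℝ) < primesIn Set.univ q a x := by exact_mod_cast h4
    rw [lt_div_iff₀ h5] at hx
    exact hx.le

private theorem star_prof {W : ℕ} {u : ℕ → ℝ} (hW : 1 ≤ W)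
    (hu : ∀ r, r < W → r.Coprime W → 0 ≤ u r ∧ u r ≤ 1) : LowerProfile (star W u) W u := by
  intro q a hq hWq ha
  have h1 := Pool.Agent.Lib.MP_629a14_nt.Kp.star_profile hW hu q a hq hWq ha
  exact le_of_eq h1.liminf_eq.symm

private theorem rich_sub_sums {κ : ℝ} (hκ : 0 < κ) (A B : Set ℕ) {n : ℕ} (hn : 2 ≤ n)
    (h : n ∈ rich κ A B) : n ∈ sums A B := by
  have h4 : 0 < size n := Pool.Agent.Lib.MP_629a14_nt.Ts.size_pos hn
  have h5 : (0 : ℝ) < repsIn A B n := lt_of_lt_of_le (mul_pos hκ h4) h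
  show 0 < repsIn A B n
  exact_mod_cast h5

private theorem rich_anti {κ κ' : ℝ} (h : κ' ≤ κ) (A B : Set ℕ) {n : ℕ} (hn : n ∈ rich κ A B) :
    n ∈ rich κ' A B := by
  show κ' * size n ≤ repsIn A B n
  have h1 : κ * size n ≤ repsIn A B n := hn
  refine le_trans ?_ h1
  refine mul_le_mul_of_nonneg_right h ?_
  unfold size
  positivity

private theorem main {W c : ℕ} (hW1 : 1 ≤ W) (hW2 : Even W) (hc : Even c) {u v : ℕ → ℝ}
    (h : ∀ r : ℕ, r < W → r.Coprime W → 0 ≤ u r ∧ u r ≤ 1 ∧ 0 ≤ v r ∧ v r ≤ 1) :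
    LowerProfile (star W u) W u ∧ LowerProfile (star W v) W v ∧
    (∀ S : ℕ → Finset ℕ, Equidistributed W c S → Tame S →
      leastSum S W u v = best W c u v ∧ share S (sums (star W u) (star W v)) = best W c u v) ∧
    ∀ ε : ℝ, 0 < ε → ∃ κ₀ : ℝ, 0 < κ₀ ∧ ∀ κ : ℝ, 0 < κ → κ ≤ κ₀ → ∀ S : ℕ → Finset ℕ,
      Equidistributed W c S → Tame S → |leastRich κ S W u v - best W c u v| ≤ ε := by
  have hu : ∀ r : ℕ, r < W → r.Coprime W → 0 ≤ u r ∧ u r ≤ 1 :=
    fun r hr hr' => ⟨(h r hr hr').1, (h r hr hr').2.1⟩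
  have hv : ∀ r : ℕ, r < W → r.Coprime W → 0 ≤ v r ∧ v r ≤ 1 :=
    fun r hr hr' => ⟨(h r hr hr').2.2.1, (h r hr hr').2.2.2⟩
  have hsu := star_prof hW1 hu
  have hsv := star_prof hW1 hv
  -- the rich numbers
  have hrg : ∀ ε : ℝ, 0 < ε → ∃ κ : ℝ, 0 < κ ∧ ∀ S : ℕ → Finset ℕ, Equidistributed W c S →
      Tame S → ∀ A B : Set ℕ, LowerProfile A W u → LowerProfile B W v →
        best W c u v - ε ≤ share S (rich κ A B) := by
    intro ε hε
    obtain ⟨κ, hκ, h1⟩ := Pool.Agent.Lib.MP_629a14_nt.Ts.mann_low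
      Pool.Agent.Lib.MP_629a14_nt.Mn.robust_mann hW1 hW2.two_dvd hc.two_dvd hu hv ε hε
    refine ⟨κ, hκ, fun S hE hT A B hA hB => ?_⟩
    have h2 := h1 S ((equi_iff W c S).1 hE) ((tame_iff S).1 hT) A B (low_of hA) (low_of hB)
    rw [share_eq, rich_eq, best_eq]
    refine Pool.Agent.Lib.MP_629a14_nt.Ts.share_ge fun ε' hε' => ?_
    filter_upwards [h2] with N hN
    linarith
  have hne : ∀ (κ : ℝ) (S : ℕ → Finset ℕ), {d : ℝ | ∃ A B : Set ℕ, LowerProfile A W u ∧
      LowerProfile B W v ∧ d = share S (rich κ A B)}.Nonempty := fun κ S => ⟨_, _, _, hsu, hsv, rfl⟩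
  have hbd : ∀ (κ : ℝ) (S : ℕ → Finset ℕ), BddBelow {d : ℝ | ∃ A B : Set ℕ, LowerProfile A W u ∧
      LowerProfile B W v ∧ d = share S (rich κ A B)} := by
    refine fun κ S => ⟨0, ?_⟩
    rintro d ⟨A, B, -, -, rfl⟩
    rw [share_eq]
    exact Pool.Agent.Lib.MP_629a14_nt.Ts.share_nonneg _ _
  have hunif : ∀ ε : ℝ, 0 < ε → ∃ κ : ℝ, 0 < κ ∧ ∀ κ' : ℝ, κ' ≤ κ → ∀ S : ℕ → Finset ℕ,
      Equidistributed W c S → Tame S → best W c u v - ε ≤ leastRich κ' S W u v := by
    intro ε hε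
    obtain ⟨κ, hκ, h1⟩ := hrg ε hε
    refine ⟨κ, hκ, fun κ' hκ' S hE hT => le_csInf (hne κ' S) ?_⟩
    rintro d ⟨A, B, hA, hB, rfl⟩
    refine (h1 S hE hT A B hA hB).trans ?_
    rw [share_eq, share_eq]
    exact Pool.Agent.Lib.MP_629a14_nt.Ts.share_mono
      (Eventually.of_forall fun N n _ hn => rich_anti hκ' A B hn)
  have hev : ∀ S : ℕ → Finset ℕ, Equidistributed W c S → ∀ N : ℕ, ∀ n ∈ S N, 2 ≤ n := by
    intro S hE N n hn
    have h1 := hE.1 N hn
    unfold progr at h1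
    rw [Finset.mem_filter, Finset.mem_Icc] at h1
    have h3 : 2 ∣ n := (h1.2.of_dvd hW2.two_dvd).dvd_iff (dvd_refl 2) |>.2 hc.two_dvd
    omega
  have hsr : ∀ κ : ℝ, 0 < κ → ∀ S : ℕ → Finset ℕ, Equidistributed W c S → ∀ A B : Set ℕ,
      share S (rich κ A B) ≤ share S (sums A B) := by
    intro κ hκ S hE A B
    rw [share_eq, share_eq]
    exact Pool.Agent.Lib.MP_629a14_nt.Ts.share_mono
      (Eventually.of_forall fun N n hn hn' => rich_sub_sums hκ A B (hev S hE N n hn) hn')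
  have hlow : ∀ S : ℕ → Finset ℕ, Equidistributed W c S → Tame S → ∀ A B : Set ℕ,
      LowerProfile A W u → LowerProfile B W v → best W c u v ≤ share S (sums A B) := by
    intro S hE hT A B hA hB
    refine le_of_forall_pos_le_add fun ε hε => ?_
    obtain ⟨κ, hκ, h1⟩ := hrg ε hε
    linarith [h1 S hE hT A B hA hB, hsr κ hκ S hE A B]
  have hup : ∀ S : ℕ → Finset ℕ, Equidistributed W c S →
      share S (sums (star W u) (star W v)) ≤ best W c u v := by
    intro S hE
    rw [share_eq, sums_eq, best_eq]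
    exact Pool.Agent.Lib.MP_629a14_nt.Ts.star_up' hW1 ((equi_iff W c S).1 hE) u v
  refine ⟨hsu, hsv, fun S hE hT => ?_, fun ε hε => ?_⟩
  · have hstar : share S (sums (star W u) (star W v)) = best W c u v :=
      le_antisymm (hup S hE) (hlow S hE hT _ _ hsu hsv)
    refine ⟨?_, hstar⟩
    unfold leastSum
    refine le_antisymm ?_ ?_
    · refine csInf_le ⟨best W c u v, ?_⟩ ⟨_, _, hsu, hsv, hstar.symm⟩
      rintro d ⟨A, B, hA, hB, rfl⟩
      exact hlow S hE hT A B hA hB
    · refine le_csInf ⟨_, _, _, hsu, hsv, rfl⟩ ?_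
      rintro d ⟨A, B, hA, hB, rfl⟩
      exact hlow S hE hT A B hA hB
  · obtain ⟨κ₀, hκ₀, h1⟩ := hunif ε hε
    refine ⟨κ₀, hκ₀, fun κ hκ hκ' S hE hT => ?_⟩
    have h2 := h1 κ hκ' S hE hT
    have h3 : leastRich κ S W u v ≤ best W c u v :=
      (csInf_le (hbd κ S) ⟨_, _, hsu, hsv, rfl⟩).trans ((hsr κ hκ S hE _ _).trans (hup S hE))
    rw [abs_le]
    constructor <;> linarith

/-- Part one. Let `W ≥ 1` and `c` be even and let `u`, `v` be functions on the reduced residues modulo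
`W` with values in `[0, 1]`. Consider all pairs of sets `A`, `B` such that the primes in `A`, in `B`
have lower densities at least `u (a mod W)`, `v (a mod W)` relative to the primes of the class `a`
modulo `q`, for every multiple `q` of `W` and every `a` coprime to `q`. Let `S` be any equidistributed
and tame sequence of finite sets of numbers `n ≡ c (mod W)`. The infimum over `A`, `B` of the share in
`S` of the sums of a prime in `A` and a prime in `B` is `best W c u v`, and it is attained by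
`star W u`, `star W v`. It is also the limit for `κ → 0+` of the infimum of the share in `S` of the
`n` with at least `κ n^2 / (φ(n) log^2 n)` representations, uniformly in `S`.
Part two. The following sequences are equidistributed and tame: the sets of all `n ≡ c (mod W)` in
`[1, N]`; every sequence of subsets `S N` of these sets whose exponential means differ from those of
the whole sets by `o(1 / log^2 N)`; every sequence of Sidon subsets with `|S N| ~ (N / W)^(1/2)`;
equidistributed sequences with `N E_s(S N) ≤ K |S N|^(2 s)`, `E_s` the `s`-fold additive energy; and the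
explicit sequence `thin W c`, for which `|S N| ≤ log^9 N` for all large `N`. -/
theorem result :
    (∀ W c : ℕ, 1 ≤ W → Even W → Even c → ∀ u v : ℕ → ℝ,
      (∀ r : ℕ, r < W → r.Coprime W → 0 ≤ u r ∧ u r ≤ 1 ∧ 0 ≤ v r ∧ v r ≤ 1) →
      LowerProfile (star W u) W u ∧ LowerProfile (star W v) W v ∧
      (∀ S : ℕ → Finset ℕ, Equidistributed W c S → Tame S →
        leastSum S W u v = best W c u v ∧ share S (sums (star W u) (star W v)) = best W c u v) ∧
      ∀ ε : ℝ, 0 < ε → ∃ κ₀ : ℝ, 0 < κ₀ ∧ ∀ κ : ℝ, 0 < κ → κ ≤ κ₀ → ∀ S : ℕ → Finset ℕ,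
        Equidistributed W c S → Tame S → |leastRich κ S W u v - best W c u v| ≤ ε) ∧
    (∀ W c : ℕ, 1 ≤ W → Equidistributed W c (progr W c) ∧ Tame (progr W c) ∧
      (∀ S : ℕ → Finset ℕ, (∀ N : ℕ, S N ⊆ progr W c N) →
        ((∀ ε : ℝ, 0 < ε → ∀ᶠ N : ℕ in atTop, (S N).Nonempty ∧
            ∀ t : ℝ, ‖mean (S N) t - mean (progr W c N) t‖ ≤ ε / Real.log N ^ 2) →
          Equidistributed W c S ∧ Tame S) ∧
        ((∀ N : ℕ, Sidon (S N)) →
          Tendsto (fun N : ℕ => ((S N).card : ℝ) / Real.sqrt ((N : ℝ) / W)) atTop (𝓝 1) →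
          Equidistributed W c S ∧ Tame S) ∧
        ∀ (s : ℕ) (K : ℝ), 1 ≤ s → Equidistributed W c S →
          (∀ᶠ N : ℕ in atTop, (N : ℝ) * energy (S N) s ≤ K * ((S N).card : ℝ) ^ (2 * s)) →
          Tame S) ∧
      Equidistributed W c (thin W c) ∧ Tame (thin W c) ∧
        ∀ᶠ N : ℕ in atTop, ((thin W c N).card : ℝ) ≤ Real.log N ^ 9) := by
  refine ⟨fun W c hW1 hW2 hc u v h => main hW1 hW2 hc h, fun W c hW => ⟨?_, ?_, ?_, ?_⟩⟩
  · rw [equi_iff]
    exact Pool.Agent.Lib.MP_629a14_nt.Ts.cls_equi hW c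
  · rw [tame_iff]
    exact Pool.Agent.Lib.MP_629a14_nt.Ts.cls_tm hW c
  · intro S hS
    refine ⟨fun h => ?_, fun h h' => ?_, fun s K hs hE h => ?_⟩
    · simp only [mean_eq] at h
      rw [equi_iff, tame_iff]
      exact ⟨Pool.Agent.Lib.MP_629a14_nt.Ts.equi_of_log c S hS h,
        Pool.Agent.Lib.MP_629a14_nt.Ts.tm_of_log hW c S h⟩
    · rw [equi_iff, tame_iff]
      exact Pool.Agent.Lib.MP_629a14_nt.Ts.sidon_equi_tm hW c S hS h h'
    · rw [tame_iff]
      refine Pool.Agent.Lib.MP_629a14_nt.Ts.tm_of_energy S (fun N n hn => ?_) s hs K ?_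
      · have h1 := hS N hn
        unfold progr at h1
        exact (Finset.mem_Icc.1 (Finset.mem_filter.1 h1).1).2
      · filter_upwards [h, hE.2 1 one_pos] with N h1 h2
        exact ⟨h2.1, h1⟩
  · have h : thin W c = Pool.Agent.Lib.MP_629a14_nt.Ts.poly W c := rfl
    rw [equi_iff, tame_iff, h]
    exact ⟨Pool.Agent.Lib.MP_629a14_nt.Ts.equi_of_log c _
        (Pool.Agent.Lib.MP_629a14_nt.Ts.poly_subset W c)
        (Pool.Agent.Lib.MP_629a14_nt.Ts.poly_equi hW c),
      Pool.Agent.Lib.MP_629a14_nt.Ts.tm_of_log hW c _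
        (Pool.Agent.Lib.MP_629a14_nt.Ts.poly_equi hW c),
      Pool.Agent.Lib.MP_629a14_nt.Ts.poly_card hW c⟩

end Pool.Agent.Results.MP_629a14_nt.MannPrimes
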