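import Pool.Agent.Lib.MP_629a14_nt.Ts.ColLow
import Pool.Agent.Lib.MP_629a14_nt.Ts.Sidon
import Pool.Agent.Lib.MP_629a14_nt.Ts.Poly

/-!
Monochromatic sums of two primes in thin sets of even numbers.
-/

set_option autoImplicit false

namespace Pool.Agent.Results.MP_629a14_nt.MonochromaticSums

open Filter Topology

/-- The number of ordered representations `n = p + q` with primes `p ∈ A`, `q ∈ B`. -/
noncomputable def repsIn (A B : Set ℕ) (n : ℕ) : ℕ :=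
  Set.ncard {p : ℕ | p ≤ n ∧ p.Prime ∧ (n - p).Prime ∧ p ∈ A ∧ n - p ∈ B}

/-- The number of primes `p ≤ x` in `A`. -/
noncomputable def primesIn (A : Set ℕ) (x : ℕ) : ℕ :=
  Set.ncard {p : ℕ | p ≤ x ∧ p.Prime ∧ p ∈ A}

/-- The comparison function `n^2 / (φ(n) log^2 n)`. -/
noncomputable def size (n : ℕ) : ℝ := (n : ℝ) ^ 2 / ((n.totient : ℝ) * Real.log n ^ 2)

/-- The even numbers in `[1, N]`. -/
def evens (N : ℕ) : Finset ℕ := (Finset.Icc 1 N).filter Even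

/-- The mean of `e(t n)` over the `n` in the finite set `S`. -/
noncomputable def mean (S : Finset ℕ) (t : ℝ) : ℂ :=
  (∑ n ∈ S, Complex.exp (2 * Real.pi * (t * n) * Complex.I)) / (S.card : ℂ)

/-- `S N` is a set of even numbers in `[1, N]` whose exponential means differ from those of all even
numbers in `[1, N]` by `o(1)`, uniformly in the frequency. -/
def Equidistributed (S : ℕ → Finset ℕ) : Prop :=
  (∀ N : ℕ, S N ⊆ evens N) ∧ ∀ ε : ℝ, 0 < ε → ∀ᶠ N : ℕ in atTop, (S N).Nonempty ∧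
    ∀ t : ℝ, ‖mean (S N) t - mean (evens N) t‖ ≤ ε

/-- For some `s` and `K` and every `η > 0`: for all large `N` the sum of the `2 s`-th powers of the
absolute values larger than `η / log^2 N` of the means at the frequencies `h / (2 N + 1)` is at most
`K`. -/
def Tame (S : ℕ → Finset ℕ) : Prop :=
  ∃ s : ℕ, 1 ≤ s ∧ ∃ K : ℝ, ∀ η : ℝ, 0 < η → ∀ᶠ N : ℕ in atTop,
    ∑ h ∈ (Finset.range (2 * N + 1)).filter (fun h : ℕ =>
      η / Real.log N ^ 2 < ‖mean (S N) ((h : ℝ) / (2 * N + 1))‖),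
      ‖mean (S N) ((h : ℝ) / (2 * N + 1))‖ ^ (2 * s) ≤ K

/-- The lower limit of the proportion of the elements of `S N` which lie in `T`. -/
noncomputable def share (S : ℕ → Finset ℕ) (T : Set ℕ) : ℝ :=
  liminf (fun N : ℕ => (Set.ncard {n : ℕ | n ∈ S N ∧ n ∈ T} : ℝ) / (S N).card) atTop

/-- The even numbers that are sums of two primes of the same colour. -/
def mono {k : ℕ} (χ : ℕ → Fin k) : Set ℕ :=
  {n : ℕ | Even n ∧ ∃ i, 0 < repsIn (χ ⁻¹' {i}) (χ ⁻¹' {i}) n}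

/-- The infimum of the lower proportion of `mono χ` in `S` over all colourings with `k` colours. -/
noncomputable def leastMono (S : ℕ → Finset ℕ) (k : ℕ) : ℝ :=
  sInf {d : ℝ | ∃ χ : ℕ → Fin k, d = share S (mono χ)}

/-- The number of pairs of `s`-tuples of elements of `S` with equal sums. -/
noncomputable def energy (S : Finset ℕ) (s : ℕ) : ℕ :=
  Set.ncard {v : (Fin s → ℕ) × (Fin s → ℕ) | (∀ j, v.1 j ∈ S) ∧ (∀ j, v.2 j ∈ S) ∧
    ∑ j, v.1 j = ∑ j, v.2 j}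

/-- All sums of two elements are different. -/
def Sidon (A : Finset ℕ) : Prop :=
  ∀ a ∈ A, ∀ b ∈ A, ∀ c ∈ A, ∀ d ∈ A, a + b = c + d → (a = c ∧ b = d) ∨ (a = d ∧ b = c)

private theorem reps_eq (A B : Set ℕ) (n : ℕ) :
    repsIn A B n = Pool.Agent.Lib.MP_629a14_nt.Sm.repsIn A B n := by
  classical
  unfold repsIn Pool.Agent.Lib.MP_629a14_nt.Sm.repsIn
  rw [← Set.ncard_coe_finset]
  congr 1
  ext p
  simp only [Set.mem_ofPred_eq, Finset.coe_filter, Finset.mem_range]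
  constructor
  · rintro ⟨h1, h2⟩
    exact ⟨by omega, h2⟩
  · rintro ⟨h1, h2⟩
    exact ⟨by omega, h2⟩

private theorem cnt_eq (B : Set ℕ) (x : ℕ) :
    primesIn B x = Pool.Agent.Lib.MP_629a14_nt.Rob.cntB B x := by
  classical
  unfold primesIn Pool.Agent.Lib.MP_629a14_nt.Rob.cntB
  rw [← Set.ncard_coe_finset]
  congr 1
  ext p
  simp only [Set.mem_ofPred_eq, Finset.coe_filter, Finset.mem_Icc]
  constructor
  · rintro ⟨h1, h2, h3⟩
    exact ⟨⟨h2.one_le, h1⟩, h2, h3⟩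
  · rintro ⟨⟨_, h1⟩, h2, h3⟩
    exact ⟨h1, h2, h3⟩

private theorem evens_eq (N : ℕ) : evens N = Pool.Agent.Lib.MP_629a14_nt.Ts.cls 2 0 N := by
  unfold evens Pool.Agent.Lib.MP_629a14_nt.Ts.cls
  refine Finset.filter_congr fun n _ => ?_
  rw [Nat.even_iff]
  rfl

private theorem mean_eq (S : Finset ℕ) (t : ℝ) :
    mean S t = Pool.Agent.Lib.MP_629a14_nt.Ts.mu S t := by
  unfold mean Pool.Agent.Lib.MP_629a14_nt.Ts.mu Pool.Agent.Lib.MP_629a14_nt.ee
  push_cast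
  rfl

private theorem equi_iff (S : ℕ → Finset ℕ) :
    Equidistributed S ↔ Pool.Agent.Lib.MP_629a14_nt.Ts.Equi 2 0 S := by
  unfold Equidistributed Pool.Agent.Lib.MP_629a14_nt.Ts.Equi
  simp only [mean_eq, evens_eq]

private theorem tame_iff (S : ℕ → Finset ℕ) :
    Tame S ↔ Pool.Agent.Lib.MP_629a14_nt.Ts.Tm S := by
  unfold Tame Pool.Agent.Lib.MP_629a14_nt.Ts.Tm
  simp only [mean_eq]

private theorem share_eq (S : ℕ → Finset ℕ) (T : Set ℕ) :
    share S T = Pool.Agent.Lib.MP_629a14_nt.Ts.share S T := rfl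

private theorem energy_eq (S : Finset ℕ) (s : ℕ) :
    energy S s = Pool.Agent.Lib.MP_629a14_nt.Ts.ener S s := by
  unfold energy Pool.Agent.Lib.MP_629a14_nt.Ts.ener
  rw [← Set.ncard_coe_finset]
  congr 1
  ext v
  simp only [Set.mem_ofPred_eq, Finset.coe_filter, Finset.mem_product, Fintype.mem_piFinset]
  tauto

private theorem size_pos (n : ℕ) (hn : 2 ≤ n) : 0 < size n := by
  unfold size
  have h1 : (2 : ℝ) ≤ n := by exact_mod_cast hn
  have h2 : 0 < Real.log n := Real.log_pos (by linarith)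
  have h3 : 0 < (n.totient : ℝ) := by
    have := Nat.totient_pos.2 (by omega : 0 < n)
    exact_mod_cast this
  positivity

private theorem mem_evens {N n : ℕ} (h : n ∈ evens N) : 2 ≤ n ∧ Even n := by
  unfold evens at h
  rw [Finset.mem_filter, Finset.mem_Icc] at h
  obtain ⟨⟨h1, -⟩, m, h2⟩ := h
  exact ⟨by omega, m, h2⟩

private theorem rich_mono {S : ℕ → Finset ℕ} (hE : Equidistributed S) {k : ℕ} (χ : ℕ → Fin k)
    (c : ℝ) (hc : 0 < c) (N : ℕ) : Pool.Agent.Lib.MP_629a14_nt.Ts.prop (S N) {n | ∃ i,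
      c * Pool.Agent.Lib.MP_629a14_nt.Col.size n ≤
        (Pool.Agent.Lib.MP_629a14_nt.Sm.repsIn (χ ⁻¹' {i}) (χ ⁻¹' {i}) n : ℝ)} ≤
      Pool.Agent.Lib.MP_629a14_nt.Ts.prop (S N) (mono χ) := by
  refine Pool.Agent.Lib.MP_629a14_nt.Ts.prop_mono _ fun n hn h => ?_
  obtain ⟨i, hi⟩ := h
  obtain ⟨h1, h2⟩ := mem_evens (hE.1 N hn)
  refine ⟨h2, i, ?_⟩
  rw [reps_eq]
  have h3 : (0 : ℝ) < (Pool.Agent.Lib.MP_629a14_nt.Sm.repsIn (χ ⁻¹' {i}) (χ ⁻¹' {i}) n : ℝ) :=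
    lt_of_lt_of_le (mul_pos hc (size_pos n h1)) hi
  exact_mod_cast h3

private theorem mono_Mo {k : ℕ} (χ : ℕ → Fin k) (n : ℕ) (h : n ∈ mono χ) :
    n ∈ Pool.Agent.Lib.MP_629a14_nt.Ts.Mo χ := by
  obtain ⟨-, i, hi⟩ := h
  unfold repsIn at hi
  obtain ⟨p, hp1, hp2, hp3, hp4, hp5⟩ := Set.nonempty_of_ncard_ne_zero (Nat.pos_iff_ne_zero.1 hi)
  exact ⟨p, n - p, hp2, hp3, by omega, Eq.trans hp4 (Eq.symm hp5)⟩

private theorem count_of_prop {S : Finset ℕ} (hS : S.Nonempty) {T : Set ℕ} {x : ℝ}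
    (h : x ≤ Pool.Agent.Lib.MP_629a14_nt.Ts.prop S T) :
    x * S.card ≤ (Set.ncard {n : ℕ | n ∈ S ∧ n ∈ T} : ℝ) := by
  have hc : (0 : ℝ) < S.card := by exact_mod_cast hS.card_pos
  unfold Pool.Agent.Lib.MP_629a14_nt.Ts.prop at h
  rwa [le_div_iff₀ hc] at h

private theorem least_le {S : ℕ → Finset ℕ} {k : ℕ} (χ : ℕ → Fin k) {x : ℝ}
    (h : share S (mono χ) ≤ x) : leastMono S k ≤ x := by
  unfold leastMono
  refine le_trans (csInf_le ⟨0, ?_⟩ ⟨χ, rfl⟩) h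
  rintro d ⟨χ', rfl⟩
  exact Pool.Agent.Lib.MP_629a14_nt.Ts.share_nonneg _ _

private theorem le_least {S : ℕ → Finset ℕ} {k : ℕ} (hk : 1 ≤ k) {x : ℝ}
    (h : ∀ χ : ℕ → Fin k, x ≤ share S (mono χ)) : x ≤ leastMono S k := by
  unfold leastMono
  refine le_csInf ?_ ?_
  · obtain ⟨m, rfl⟩ : ∃ m, k = m + 1 := ⟨k - 1, by omega⟩
    exact ⟨_, fun _ => 0, rfl⟩
  · rintro d ⟨χ, rfl⟩
    exact h χ

private theorem least_prod {S : ℕ → Finset ℕ} (hE : Equidistributed S) (P : Finset ℕ)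
    (hP : ∀ p ∈ P, p.Prime ∧ 3 ≤ p) :
    leastMono S (2 ^ (P.card + 1)) ≤ (1 / 2) * ∏ p ∈ P, (1 - 1 / (p : ℝ)) := by
  obtain ⟨χ, hχ⟩ := Pool.Agent.Lib.MP_629a14_nt.Ts.up_prop P hP (k := 2 ^ (P.card + 1)) le_rfl
  refine least_le χ (Pool.Agent.Lib.MP_629a14_nt.Ts.share_le fun ε hε => ?_)
  filter_upwards [hχ S ((equi_iff S).1 hE) ε hε] with N hN
  exact (Pool.Agent.Lib.MP_629a14_nt.Ts.prop_mono _ fun n _ h => mono_Mo χ n h).trans hN

/-- Let `S N` be sets of even numbers in `[1, N]` which are equidistributed and tame, and let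
`m_k = leastMono S k` be the infimum, over all colourings with `k` colours, of the lower limit of the
proportion of the `n` in `S N` that are sums of two primes of the same colour. Then
`c / log k ≤ m_k ≤ C / log log (k + 2)`, `1 / k ≤ m_k`, `m_2 = 1 / 2`, and
`m_k ≤ (1/2) ∏_{p ∈ P} (1 - 1/p)` for `k = 2^(|P|+1)`, `P` a finite set of odd primes. The lower bounds
hold for all large `N` uniformly in the colouring and count the `n` in `S N` with at least
`c' n^2 / (φ(n) log^2 n)` representations by two primes of one colour. The hypotheses hold for all even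
numbers; for all `S` whose exponential means are within `o(1 / log^2 N)` of those of the even numbers,
among them one with at most `log^9 N` elements; for equidistributed sets of small additive energy; and
for all Sidon sets of even numbers of size `(1 + o(1)) √(N/2)`. -/
theorem result :
    (∃ c C : ℝ, 0 < c ∧ 0 < C ∧ ∀ k : ℕ, 2 ≤ k → ∃ c' : ℝ, 0 < c' ∧ ∀ S : ℕ → Finset ℕ,
      Equidistributed S → Tame S →
        c / Real.log k ≤ leastMono S k ∧ leastMono S k ≤ C / Real.log (Real.log (k + 2)) ∧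
        ∀ᶠ N : ℕ in atTop, ∀ χ : ℕ → Fin k, c / Real.log k * (S N).card ≤
          Set.ncard {n : ℕ | n ∈ S N ∧
            ∃ i, c' * size n ≤ repsIn (χ ⁻¹' {i}) (χ ⁻¹' {i}) n}) ∧
    (∀ S : ℕ → Finset ℕ, Equidistributed S → Tame S →
      (∀ k : ℕ, 1 ≤ k → 1 / (k : ℝ) ≤ leastMono S k) ∧ leastMono S 2 = 1 / 2 ∧
      ∀ P : Finset ℕ, (∀ p ∈ P, p.Prime ∧ 3 ≤ p) →
        leastMono S (2 ^ (P.card + 1)) ≤ (1 / 2) * ∏ p ∈ P, (1 - 1 / (p : ℝ))) ∧
    (∀ (k : ℕ) (ε : ℝ), 0 < ε → ∃ c : ℝ, 0 < c ∧ ∀ S : ℕ → Finset ℕ, Equidistributed S → Tame S →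
      ∀ᶠ N : ℕ in atTop, ∀ A : Fin k → Set ℕ, (∀ i j, i ≠ j → Disjoint (A i) (A j)) →
        (∑ i, ((primesIn (A i) (N / 2) : ℝ) / primesIn Set.univ (N / 2)) ^ 2 - ε) * (S N).card ≤
          Set.ncard {n : ℕ | n ∈ S N ∧ ∃ i, c * size n ≤ repsIn (A i) (A i) n}) ∧
    (Equidistributed evens ∧ Tame evens) ∧
    (∀ S : ℕ → Finset ℕ, (∀ N, S N ⊆ evens N) → (∀ ε : ℝ, 0 < ε → ∀ᶠ N : ℕ in atTop,
      (S N).Nonempty ∧ ∀ t : ℝ, ‖mean (S N) t - mean (evens N) t‖ ≤ ε / Real.log N ^ 2) →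
        Equidistributed S ∧ Tame S) ∧
    (∀ S : ℕ → Finset ℕ, Equidistributed S → (∃ s : ℕ, 1 ≤ s ∧ ∃ K : ℝ, ∀ᶠ N : ℕ in atTop,
      (N : ℝ) * energy (S N) s ≤ K * ((S N).card : ℝ) ^ (2 * s)) → Tame S) ∧
    (∀ S : ℕ → Finset ℕ, (∀ N, S N ⊆ evens N ∧ Sidon (S N)) →
      Tendsto (fun N : ℕ => ((S N).card : ℝ) / Real.sqrt ((N : ℝ) / 2)) atTop (𝓝 1) →
        Equidistributed S ∧ Tame S) ∧
    ∃ S : ℕ → Finset ℕ, Equidistributed S ∧ Tame S ∧
      ∀ᶠ N : ℕ in atTop, ((S N).card : ℝ) ≤ Real.log N ^ 9 := by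
  classical
  have hk1 : ∀ S : ℕ → Finset ℕ, Equidistributed S → Tame S → ∀ k : ℕ, 1 ≤ k →
      1 / (k : ℝ) ≤ leastMono S k := by
    intro S hE hT k hk
    refine le_least hk fun χ => Pool.Agent.Lib.MP_629a14_nt.Ts.share_ge fun ε hε => ?_
    obtain ⟨c, hc, h⟩ := Pool.Agent.Lib.MP_629a14_nt.Ts.low_k k hk ε hε
    filter_upwards [h S ((equi_iff S).1 hE) ((tame_iff S).1 hT)] with N hN
    exact (hN χ).trans (rich_mono hE χ c hc N)
  refine ⟨?_, ?_, ?_, ?_, ?_, ?_, ?_, ?_⟩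
  · obtain ⟨c, hc, hlow⟩ := Pool.Agent.Lib.MP_629a14_nt.Ts.low_log
    obtain ⟨C, hC, hup⟩ := Pool.Agent.Lib.MP_629a14_nt.Ts.up_log
    refine ⟨c, C, hc, hC, fun k hk => ?_⟩
    obtain ⟨c', hc', h⟩ := hlow k hk
    obtain ⟨χ, hχ⟩ := hup k hk
    refine ⟨c', hc', fun S hE hT => ⟨?_, ?_, ?_⟩⟩
    · refine le_least (by omega) fun χ => Pool.Agent.Lib.MP_629a14_nt.Ts.share_ge fun ε hε => ?_
      filter_upwards [h S ((equi_iff S).1 hE) ((tame_iff S).1 hT)] with N hN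
      have h1 := (hN χ).trans (rich_mono hE χ c' hc' N)
      linarith
    · refine least_le χ (Pool.Agent.Lib.MP_629a14_nt.Ts.share_le fun ε hε => ?_)
      filter_upwards [hχ S ((equi_iff S).1 hE)] with N hN
      have h1 := (Pool.Agent.Lib.MP_629a14_nt.Ts.prop_mono (S N)
        fun n _ h => mono_Mo χ n h).trans hN
      linarith
    · filter_upwards [h S ((equi_iff S).1 hE) ((tame_iff S).1 hT), hE.2 1 one_pos] with N hN hne χ
      have h1 := count_of_prop hne.1 (hN χ)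
      simp only [reps_eq]
      exact h1
  · intro S hE hT
    refine ⟨hk1 S hE hT, le_antisymm ?_ ?_, fun P hP => least_prod hE P hP⟩
    · have h1 := least_prod hE ∅ (fun p hp => absurd hp (Finset.notMem_empty p))
      rw [Finset.card_empty, Finset.prod_empty, mul_one] at h1
      exact h1
    · have h1 := hk1 S hE hT 2 (by norm_num)
      exact_mod_cast h1
  · intro k ε hε
    obtain ⟨c, hc, h⟩ := Pool.Agent.Lib.MP_629a14_nt.Ts.low_sq k ε hε
    refine ⟨c, hc, fun S hE hT => ?_⟩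
    filter_upwards [h S ((equi_iff S).1 hE) ((tame_iff S).1 hT), hE.2 1 one_pos] with N hN hne A hA
    have h1 := count_of_prop hne.1 (hN A hA)
    simp only [reps_eq, cnt_eq]
    exact h1
  · have he : evens = Pool.Agent.Lib.MP_629a14_nt.Ts.cls 2 0 := funext evens_eq
    rw [equi_iff, tame_iff, he]
    exact ⟨Pool.Agent.Lib.MP_629a14_nt.Ts.cls_equi (by norm_num) 0,
      Pool.Agent.Lib.MP_629a14_nt.Ts.cls_tm (by norm_num) 0⟩
  · intro S hS h
    simp only [mean_eq, evens_eq] at h hS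
    rw [equi_iff, tame_iff]
    exact ⟨Pool.Agent.Lib.MP_629a14_nt.Ts.equi_of_log 0 S hS h,
      Pool.Agent.Lib.MP_629a14_nt.Ts.tm_of_log (by norm_num) 0 S h⟩
  · rintro S hE ⟨s, hs, K, h⟩
    rw [tame_iff]
    refine Pool.Agent.Lib.MP_629a14_nt.Ts.tm_of_energy S (fun N n hn => ?_) s hs K ?_
    · have h1 := hE.1 N hn
      unfold evens at h1
      exact (Finset.mem_Icc.1 (Finset.mem_filter.1 h1).1).2
    · filter_upwards [h, hE.2 1 one_pos] with N hN hne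
      rw [energy_eq] at hN
      exact ⟨hne.1, hN⟩
  · intro S hS hd
    rw [equi_iff, tame_iff]
    refine Pool.Agent.Lib.MP_629a14_nt.Ts.sidon_equi_tm (by norm_num) 0 S
      (fun N => (evens_eq N) ▸ (hS N).1) (fun N => (hS N).2) ?_
    exact_mod_cast hd
  · refine ⟨Pool.Agent.Lib.MP_629a14_nt.Ts.poly 2 0, ?_, ?_,
      Pool.Agent.Lib.MP_629a14_nt.Ts.poly_card (by norm_num) 0⟩
    · rw [equi_iff]
      exact Pool.Agent.Lib.MP_629a14_nt.Ts.equi_of_log 0 _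
        (Pool.Agent.Lib.MP_629a14_nt.Ts.poly_subset 2 0)
        fun ε hε => Pool.Agent.Lib.MP_629a14_nt.Ts.poly_equi (by norm_num) 0 ε hε
    · rw [tame_iff]
      exact Pool.Agent.Lib.MP_629a14_nt.Ts.tm_of_log (by norm_num) 0 _
        fun ε hε => Pool.Agent.Lib.MP_629a14_nt.Ts.poly_equi (by norm_num) 0 ε hε

end Pool.Agent.Results.MP_629a14_nt.MonochromaticSums
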