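import Pool.Agent.Lib.MP_629a14_nt.Ts.RMain
import Pool.Agent.Lib.MP_629a14_nt.Ts.Mem
import Pool.Agent.Lib.MP_629a14_nt.Ts.Poly

/-!
The rearrangement inequality for the Goldbach counts of two arbitrary sets of primes, relative to
thin sets of even numbers.
-/

set_option autoImplicit false

namespace Pool.Agent.Results.MP_629a14_nt.RearrangementAll

open Filter Topology

/-- The number of ordered representations `n = p + q` with primes `p ∈ A`, `q ∈ B`. -/
noncomputable def repsIn (A B : Set ℕ) (n : ℕ) : ℕ :=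
  Set.ncard {p : ℕ | p ≤ n ∧ p.Prime ∧ (n - p).Prime ∧ p ∈ A ∧ n - p ∈ B}

/-- The twin prime constant, the product of `1 - 1 / (p - 1) ^ 2` over the primes `p > 2`. -/
noncomputable def twinConst : ℝ :=
  ∏' p : ℕ, if p.Prime ∧ 2 < p then 1 - 1 / ((p : ℝ) - 1) ^ 2 else 1

/-- The number of ordered representations of the even number `n` as a sum of two primes predicted
by Hardy and Littlewood. -/
noncomputable def HL (n : ℕ) : ℝ :=
  2 * twinConst * (∏ p ∈ n.primeFactors.filter (fun p => 2 < p), (((p : ℝ) - 1) / ((p : ℝ) - 2))) *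
    (n / (Real.log n) ^ 2)

/-- The number of representations in `A` and `B`, divided by the prediction for all primes. -/
noncomputable def ratio (A B : Set ℕ) (n : ℕ) : ℝ := (repsIn A B n : ℝ) / HL n

/-- The index of the cell of `x ≤ N`, where `[0, N]` is cut into `K` cells of equal length. -/
def cell (K N x : ℕ) : ℕ := x * K / (N + 1)

/-- The number of primes `p ≤ N` of `A` in the cell `k` with `p ≡ r (mod W)`. -/
noncomputable def count (A : Set ℕ) (W K N k r : ℕ) : ℕ :=
  Set.ncard {p : ℕ | p ≤ N ∧ p.Prime ∧ p ∈ A ∧ cell K N p = k ∧ p % W = r}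

/-- The density of `A` relative to all primes of the cell `k` and the class `r` modulo `W`. -/
noncomputable def dens (A : Set ℕ) (W K N k r : ℕ) : ℝ :=
  (count A W K N k r : ℝ) / count Set.univ W K N k r

/-- The numbers `p` coprime to `W` such that the distance of `√2 p` from the nearest integer is less
than half of the value of `a` at the cell of `p` and the residue of `p` modulo `W`. -/
def star (W K N : ℕ) (a : ℕ → ℕ → ℝ) : Set ℕ :=
  {p : ℕ | p.Coprime W ∧ |Real.sqrt 2 * p - round (Real.sqrt 2 * p)| < a (cell K N p) (p % W) / 2}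

/-- The set with the densities of `A`. -/
noncomputable def rearranged (W K N : ℕ) (A : Set ℕ) : Set ℕ := star W K N (dens A W K N)

/-- The residues `r` modulo `W` such that `r` and `n - r` are coprime to `W`. -/
def admissible (W n : ℕ) : Finset ℕ :=
  (Finset.range W).filter (fun r => r.Coprime W ∧ (n + W - r).Coprime W)

/-- The convolution of the indicator functions of the intervals `(-a/2, a/2)` and `(-b/2, b/2)` of
the circle of length one, at a point of absolute value `x ≤ 1 / 2`. -/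
noncomputable def trapezoid (a b x : ℝ) : ℝ :=
  min (min a b) (max (max 0 (a + b - 1)) ((a + b) / 2 - x))

/-- The sum over `0 < y < n`, divided by `n`, of the mean over the admissible `r` of the values
`trapezoid (a (cell of y) r) (b (cell of n - y) (n - r)) x`. -/
noncomputable def average (W K N : ℕ) (a b : ℕ → ℕ → ℝ) (n : ℕ) (x : ℝ) : ℝ :=
  (∑ y ∈ Finset.Ico 1 n, (∑ r ∈ admissible W n, trapezoid (a (cell K N y) r)
    (b (cell K N (n - y)) ((n + W - r) % W)) x) / (admissible W n).card) / n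

/-- The mean value of `φ (average W K N a b n x)` for `x` in `[0, 1/2]`. -/
noncomputable def extremal (W K N : ℕ) (a b : ℕ → ℕ → ℝ) (φ : ℝ → ℝ) (n : ℕ) : ℝ :=
  2 * ∫ x in (0 : ℝ)..(1 / 2), φ (average W K N a b n x)

/-- The even numbers in `[1, N]`. -/
def evens (N : ℕ) : Finset ℕ := (Finset.Icc 1 N).filter Even

/-- The mean of `exp (2 π i t n)` over the elements `n` of the finite set `S`. -/
noncomputable def mean (S : Finset ℕ) (t : ℝ) : ℂ :=
  (∑ n ∈ S, Complex.exp (2 * Real.pi * (t * n) * Complex.I)) / S.card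

/-- Every `S N` is a set of even numbers in `[1, N]`; for large `N` it is not empty and the means of
`exp (2 π i t n)` over `S N` and over all even numbers in `[1, N]` differ by `o(1)`, uniformly in the
real number `t`. -/
def Equidistributed (S : ℕ → Finset ℕ) : Prop :=
  (∀ N : ℕ, S N ⊆ evens N) ∧ ∀ ε : ℝ, 0 < ε → ∀ᶠ N : ℕ in atTop, (S N).Nonempty ∧
    ∀ t : ℝ, ‖mean (S N) t - mean (evens N) t‖ ≤ ε

/-- There are `s ≥ 1` and `K` such that for every `η > 0` and all large `N` the sum of the `2 s`-th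
powers of those of the numbers `|mean (S N) (h / (2 N + 1))|`, `0 ≤ h ≤ 2 N`, which are larger than
`η / log^2 N` is at most `K`. -/
def Tame (S : ℕ → Finset ℕ) : Prop :=
  ∃ s : ℕ, 1 ≤ s ∧ ∃ K : ℝ, ∀ η : ℝ, 0 < η → ∀ᶠ N : ℕ in atTop,
    ∑ h ∈ (Finset.range (2 * N + 1)).filter (fun h : ℕ =>
      η / Real.log N ^ 2 < ‖mean (S N) ((h : ℝ) / (2 * N + 1))‖),
      ‖mean (S N) ((h : ℝ) / (2 * N + 1))‖ ^ (2 * s) ≤ K

/-- The elements `n ≡ c (mod q)` of `S` with `M₁ ≤ n ≤ M₂`. -/
def part (S : Finset ℕ) (M₁ M₂ q c : ℕ) : Finset ℕ :=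
  S.filter (fun n => (M₁ ≤ n ∧ n ≤ M₂) ∧ n ≡ c [MOD q])

open Pool.Agent.Lib.MP_629a14_nt in
private theorem reps_eq (A B : Set ℕ) (n : ℕ) :
    repsIn A B n = Sm.repsIn A B n := by
  classical
  unfold repsIn Sm.repsIn
  rw [← Set.ncard_coe_finset]
  congr 1
  ext p
  simp only [Set.mem_ofPred_eq, Finset.coe_filter, Finset.mem_range]
  constructor
  · rintro ⟨h1, h2⟩
    exact ⟨by omega, h2⟩
  · rintro ⟨h1, h2⟩
    exact ⟨by omega, h2⟩

open Pool.Agent.Lib.MP_629a14_nt in
private theorem ratio_eq (A B : Set ℕ) (n : ℕ) : ratio A B n = Kp.rho A B n := by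
  unfold ratio Kp.rho
  rw [reps_eq]
  rfl

open Pool.Agent.Lib.MP_629a14_nt in
private theorem count_eq (A : Set ℕ) (W K N k r : ℕ) :
    count A W K N k r = Kp.R.cellc A W K N k r := by
  unfold count Kp.R.cellc
  rw [← Set.ncard_coe_finset]
  congr 1
  ext p
  simp only [Set.mem_ofPred_eq, Finset.coe_filter, Finset.mem_Icc]
  constructor
  · rintro ⟨h1, h2, h3⟩
    exact ⟨⟨h2.one_le, h1⟩, h2, h3⟩
  · rintro ⟨h1, h2⟩
    exact ⟨h1.2, h2⟩

open Pool.Agent.Lib.MP_629a14_nt in
private theorem dens_eq (A : Set ℕ) (W K N : ℕ) : dens A W K N = Kp.R.dns A W K N := by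
  funext k r
  unfold dens Kp.R.dns
  rw [count_eq, count_eq]

open Pool.Agent.Lib.MP_629a14_nt in
private theorem rearranged_eq (A : Set ℕ) (W K N : ℕ) :
    rearranged W K N A = Kp.R.rea W K N A := by
  unfold rearranged Kp.R.rea
  rw [dens_eq]
  rfl

open Pool.Agent.Lib.MP_629a14_nt in
private theorem extremal_eq (W K N : ℕ) (a b : ℕ → ℕ → ℝ) (φ : ℝ → ℝ) (n : ℕ) :
    extremal W K N a b φ n = Kp.R.Val W K N a b φ n := rfl

private theorem evens_eq (N : ℕ) : evens N = Pool.Agent.Lib.MP_629a14_nt.Ts.cls 2 0 N := by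
  unfold evens Pool.Agent.Lib.MP_629a14_nt.Ts.cls
  refine Finset.filter_congr fun n _ => ?_
  rw [Nat.even_iff]
  rfl

private theorem mean_eq (S : Finset ℕ) (t : ℝ) :
    mean S t = Pool.Agent.Lib.MP_629a14_nt.Ts.mu S t := by
  unfold mean Pool.Agent.Lib.MP_629a14_nt.Ts.mu Pool.Agent.Lib.MP_629a14_nt.ee
  push_cast
  rfl

private theorem equi_iff (S : ℕ → Finset ℕ) :
    Equidistributed S ↔ Pool.Agent.Lib.MP_629a14_nt.Ts.Equi 2 0 S := by
  unfold Equidistributed Pool.Agent.Lib.MP_629a14_nt.Ts.Equi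
  simp only [mean_eq, evens_eq]

private theorem tame_iff (S : ℕ → Finset ℕ) :
    Tame S ↔ Pool.Agent.Lib.MP_629a14_nt.Ts.Tm S := by
  unfold Tame Pool.Agent.Lib.MP_629a14_nt.Ts.Tm
  simp only [mean_eq]

private theorem part_eq (S : Finset ℕ) (M₁ M₂ q c : ℕ) :
    part S M₁ M₂ q c = S.filter (Pool.Agent.Lib.MP_629a14_nt.Ts.In M₁ M₂ q c) := by
  unfold part Pool.Agent.Lib.MP_629a14_nt.Ts.In
  congr

/-- There is a constant `C ≥ ratio A B n` (for all sets and all `n`) such that for every `q ≥ 1`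
and every `ε > 0` there is `L` with the following property. Let `S` be an equidistributed tame
sequence of finite sets of even numbers. Then for all large `N` and for ALL sets `A`, `B` there are
`W`, `K` in `[1, L]`, `q ∣ W`, such that the rearranged sets have the densities of `A`, `B` up to
`ε`, and for every function `φ` which is convex and `Λ`-Lipschitz on `[0, C]`, for every class `c`
modulo `q` and every interval `[M₁, M₂]` in `[0, N]`, the sum of `φ (ratio A B n)` over the
elements `n` of `S N` in the interval and the class is at most the sum for the rearranged sets, up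
to `Λ ε |S N|`, and the latter is the sum of `extremal`, up to `Λ ε |S N|`. The following
sequences are equidistributed and tame: the sets of all even numbers in `[1, N]`; every sequence of
sets of even numbers in `[1, N]` whose exponential means differ from those of all even numbers in
`[1, N]` by `o(1 / log^2 N)`; and some sequence with `|S N| ≤ log^9 N` for all large `N`. -/
theorem result : (∃ C : ℝ, (∀ (A B : Set ℕ) (n : ℕ), ratio A B n ≤ C) ∧
    ∀ q : ℕ, 1 ≤ q → ∀ ε : ℝ, 0 < ε → ∃ L : ℕ, ∀ S : ℕ → Finset ℕ, Equidistributed S → Tame S →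
      ∀ᶠ N : ℕ in atTop, ∀ A B : Set ℕ, ∃ W K : ℕ,
      1 ≤ W ∧ W ≤ L ∧ 1 ≤ K ∧ K ≤ L ∧ q ∣ W ∧
      (∀ k r : ℕ, k < K → r < W → r.Coprime W →
        |dens (rearranged W K N A) W K N k r - dens A W K N k r| ≤ ε ∧
        |dens (rearranged W K N B) W K N k r - dens B W K N k r| ≤ ε) ∧
      ∀ (φ : ℝ → ℝ) (Λ : ℝ), ConvexOn ℝ (Set.Icc 0 C) φ →
        (∀ x ∈ Set.Icc 0 C, ∀ y ∈ Set.Icc 0 C, |φ x - φ y| ≤ Λ * |x - y|) →
        ∀ c M₁ M₂ : ℕ, M₂ ≤ N →
          ∑ n ∈ part (S N) M₁ M₂ q c, φ (ratio A B n) ≤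
            ∑ n ∈ part (S N) M₁ M₂ q c, φ (ratio (rearranged W K N A) (rearranged W K N B) n) +
              Λ * ε * (S N).card ∧
          |∑ n ∈ part (S N) M₁ M₂ q c, φ (ratio (rearranged W K N A) (rearranged W K N B) n) -
            ∑ n ∈ part (S N) M₁ M₂ q c,
              extremal W K N (dens A W K N) (dens B W K N) φ n| ≤ Λ * ε * (S N).card) ∧
    (Equidistributed evens ∧ Tame evens) ∧
    (∀ S : ℕ → Finset ℕ, (∀ N, S N ⊆ evens N) → (∀ ε : ℝ, 0 < ε → ∀ᶠ N : ℕ in atTop,
      (S N).Nonempty ∧ ∀ t : ℝ, ‖mean (S N) t - mean (evens N) t‖ ≤ ε / Real.log N ^ 2) →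
        Equidistributed S ∧ Tame S) ∧
    ∃ S : ℕ → Finset ℕ, Equidistributed S ∧ Tame S ∧
      ∀ᶠ N : ℕ in atTop, ((S N).card : ℝ) ≤ Real.log N ^ 9 := by
  have hev : evens = Pool.Agent.Lib.MP_629a14_nt.Ts.cls 2 0 := funext evens_eq
  refine ⟨?_, ?_, ?_, ?_⟩
  · obtain ⟨C, -, hC', h⟩ := Pool.Agent.Lib.MP_629a14_nt.Ts.rmain
    simp only [ratio_eq, rearranged_eq, dens_eq, extremal_eq, equi_iff, tame_iff, part_eq]
    exact ⟨C, hC', h⟩
  · rw [equi_iff, tame_iff, hev]
    exact ⟨Pool.Agent.Lib.MP_629a14_nt.Ts.cls_equi one_le_two 0,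
      Pool.Agent.Lib.MP_629a14_nt.Ts.cls_tm one_le_two 0⟩
  · intro S hS h
    simp only [evens_eq, mean_eq] at hS h
    rw [equi_iff, tame_iff]
    exact ⟨Pool.Agent.Lib.MP_629a14_nt.Ts.equi_of_log 0 S hS h,
      Pool.Agent.Lib.MP_629a14_nt.Ts.tm_of_log one_le_two 0 S h⟩
  · refine ⟨Pool.Agent.Lib.MP_629a14_nt.Ts.poly 2 0, ?_, ?_,
      Pool.Agent.Lib.MP_629a14_nt.Ts.poly_card one_le_two 0⟩
    · rw [equi_iff]
      exact Pool.Agent.Lib.MP_629a14_nt.Ts.equi_of_log 0 _
        (Pool.Agent.Lib.MP_629a14_nt.Ts.poly_subset 2 0)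
        (Pool.Agent.Lib.MP_629a14_nt.Ts.poly_equi one_le_two 0)
    · rw [tame_iff]
      exact Pool.Agent.Lib.MP_629a14_nt.Ts.tm_of_log one_le_two 0 _
        (Pool.Agent.Lib.MP_629a14_nt.Ts.poly_equi one_le_two 0)

end Pool.Agent.Results.MP_629a14_nt.RearrangementAll
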