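import Mathlib
import Pool.Agent.Lib.MP_629a14_nt.Lg.Final
import Pool.Agent.Lib.MP_629a14_nt.En.Main

set_option autoImplicit false

namespace Pool.Agent.Results.MP_629a14_nt.ThinFamilies

open Finset MeasureTheory

/-- The number of ordered representations of n as a sum of two primes. -/
def r2 (n : ℕ) : ℕ := ((range (n + 1)).filter (fun p => p.Prime ∧ (n - p).Prime)).card

/-- The twin prime constant, the product of 1 - 1/(p-1)^2 over the primes p > 2. -/
noncomputable def twinConst : ℝ :=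
  ∏' p : ℕ, if p.Prime ∧ 2 < p then 1 - 1 / ((p : ℝ) - 1) ^ 2 else 1

/-- The number of representations of the even number n as a sum of two primes predicted by
Hardy and Littlewood. -/
noncomputable def HL (n : ℕ) : ℝ :=
  2 * twinConst * (∏ p ∈ n.primeFactors.filter (fun p => 2 < p), (((p : ℝ) - 1) / ((p : ℝ) - 2))) *
    (n / (Real.log n) ^ 2)

/-- The prediction of Hardy and Littlewood is wrong for n by a factor outside [1 - ε, 1 + ε]. -/
def Fails (ε : ℝ) (n : ℕ) : Prop := ε * HL n < |(r2 n : ℝ) - HL n|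

/-- The Fourier transform of the weights w on [1, N]. -/
noncomputable def hat (w : ℕ → ℝ) (N : ℕ) (t : ℝ) : ℂ :=
  ∑ n ∈ Icc 1 N, (w n : ℂ) * Complex.exp (2 * Real.pi * (n * t) * Complex.I)

/-- The cosine polynomial with coefficients u(m), |m| ≤ N. -/
noncomputable def cosPoly (u : ℤ → ℝ) (N : ℕ) (t : ℝ) : ℝ :=
  ∑ m ∈ Icc (-(N : ℤ)) N, u m * Real.cos (2 * Real.pi * m * t)

/-- The coefficients u are nonnegative, so are the values of their cosine polynomial, and
u(0) (log N)^2 plus the sum of u(m) (|m|/φ(|m|))^2 over 0 < |m| ≤ N is at most K. -/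
def Admissible (u : ℤ → ℝ) (N : ℕ) (K : ℝ) : Prop :=
  (∀ m, 0 ≤ u m) ∧ (∀ t, 0 ≤ cosPoly u N t) ∧
    u 0 * (Real.log N) ^ 2 +
      ∑ m ∈ (Icc (-(N : ℤ)) N).erase 0, u m * ((m.natAbs : ℝ) / (m.natAbs.totient : ℝ)) ^ 2 ≤ K

open Classical in
/-- For all K and all δ, ε > 0 there are c > 0 and N₀ such that for N ≥ N₀: if w ≥ 0 has mass at most 1 on [1, N] and
mass at most K/(log m)^δ on the multiples of m, for every odd squarefree m ≥ 3, and if abs (hat w) ≤ c cosPoly u for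
an admissible u outside a subset of [0, 1] of measure at most N^(-1+c), then |r2 - HL| ≤ ε HL for all even n in [δN, N]
outside a set of w-mass at most ε. -/
def Criterion : Prop := ∀ K δ ε : ℝ, 0 < δ → 0 < ε → ∃ c : ℝ, 0 < c ∧ ∃ N₀ : ℕ, ∀ N : ℕ, N₀ ≤ N →
    ∀ (w : ℕ → ℝ) (u : ℤ → ℝ), (∀ n, 0 ≤ w n) → ∑ n ∈ Icc 1 N, w n ≤ 1 →
    (∀ m : ℕ, Odd m → Squarefree m → 3 ≤ m →
      ∑ n ∈ (Icc 1 N).filter (fun n => m ∣ n), w n ≤ K / (Real.log m) ^ δ) →
    Admissible u N K →
    volume {t : ℝ | t ∈ Set.Icc (0 : ℝ) 1 ∧ c * cosPoly u N t < ‖hat w N t‖} ≤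
      ENNReal.ofReal ((N : ℝ) ^ (-1 + c)) →
    ∑ n ∈ (Icc 1 N).filter (fun n : ℕ => Even n ∧ δ * N ≤ n ∧ Fails ε n), w n ≤ ε

/-- The additive energy of order s of a finite family: the number of pairs (x,y) of s-tuples of
indices for which the sums of the a (x j) and of the a (y j) are equal. -/
def energy {k : ℕ} (a : Fin k → ℕ) (s : ℕ) : ℕ :=
  ((univ : Finset ((Fin s → Fin k) × (Fin s → Fin k))).filter
    (fun xy => ∑ j, a (xy.1 j) = ∑ j, a (xy.2 j))).card

open Classical in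
/-- For all s ≥ 1, K and ε > 0 there is N₀ such that for N ≥ N₀: in every family of k even integers in [1, N] whose
energy of order s is at most K k^(2s)/N at most ε k members have |r2 - HL| > ε HL. -/
def EnergyFamilies : Prop := ∀ s : ℕ, 1 ≤ s → ∀ K ε : ℝ, 0 < ε → ∃ N₀ : ℕ, ∀ N : ℕ, N₀ ≤ N →
    ∀ (k : ℕ) (a : Fin k → ℕ), (∀ i, Even (a i) ∧ 1 ≤ a i ∧ a i ≤ N) →
      (N : ℝ) * energy a s ≤ K * (k : ℝ) ^ (2 * s) →
      (((univ : Finset (Fin k)).filter (fun i => Fails ε (a i))).card : ℝ) ≤ ε * k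

/-- The integers in [0, g^L) whose L digits in base g (leading zeros included) contain every digit d exactly τ d
times. -/
def digitClass (g L : ℕ) (τ : ℕ → ℕ) : Finset ℕ :=
  (range (g ^ L)).filter (fun m => ∀ d < g, ((range L).filter (fun i => m / g ^ i % g = d)).card = τ d)

open Classical in
/-- For g ≥ 2 and ε > 0 there are r > 0, k and N₀ such that for all N ≥ N₀, all L with N^(1-r) ≤ g^L, all digit counts τ
with τ d ≤ L - k for every digit d, and every integer s with N/4 ≤ s + m ≤ N for all m in the digit class: among the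
even numbers s + m, m in the class, at most a proportion ε have |r2 - HL| > ε HL. -/
def DigitClasses : Prop := ∀ g : ℕ, 2 ≤ g → ∀ ε : ℝ, 0 < ε → ∃ r : ℝ, 0 < r ∧ ∃ k N₀ : ℕ,
    ∀ (N L : ℕ) (τ : ℕ → ℕ) (s : ℤ), N₀ ≤ N → (N : ℝ) ^ (1 - r) ≤ (g : ℝ) ^ L → (∀ d < g, τ d + k ≤ L) →
    (∀ m ∈ digitClass g L τ, (N : ℤ) ≤ 4 * (s + (m : ℤ)) ∧ s + (m : ℤ) ≤ N) →
    (((digitClass g L τ).filter (fun m : ℕ => Even (s + (m : ℤ)) ∧ Fails ε (s + (m : ℤ)).toNat)).card : ℝ) ≤
      ε * (((digitClass g L τ).filter (fun m : ℕ => Even (s + (m : ℤ)))).card : ℝ)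

theorem hat_eq (w : ℕ → ℝ) (N : ℕ) (t : ℝ) : hat w N t = Pool.Agent.Lib.MP_629a14_nt.Th.WW w N t := by
  unfold hat Pool.Agent.Lib.MP_629a14_nt.Th.WW
  refine sum_congr rfl fun n _ => ?_
  unfold Pool.Agent.Lib.MP_629a14_nt.ee
  congr 2
  push_cast
  ring

theorem criterion : Criterion := by
  intro K δ ε hδ hε
  obtain ⟨c, hc, N₀, h⟩ := Pool.Agent.Lib.MP_629a14_nt.Lg.mainR K δ ε hδ hε
  refine ⟨c, hc, N₀, fun N hN w u hw hw1 hdiv hu hvol => ?_⟩
  refine h N hN w u hw hw1 hdiv hu ?_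
  refine le_trans (le_of_eq ?_) hvol
  congr 1
  ext t
  simp only [Set.mem_ofPred_eq]
  rw [hat_eq]
  rfl

theorem energyFamilies : EnergyFamilies := by
  intro s hs K ε hε
  obtain ⟨N₀, h⟩ := Pool.Agent.Lib.MP_629a14_nt.En.main s hs (max K 1) ε
    (lt_of_lt_of_le one_pos (le_max_right _ _)) hε
  refine ⟨N₀, fun N hN k a ha hE => ?_⟩
  have h1 := h N hN k a ⟨fun i => (ha i).2, hE.trans
    (mul_le_mul_of_nonneg_right (le_max_left _ _) (by positivity))⟩ (fun i => (ha i).1)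
  refine le_trans (le_of_eq ?_) h1
  congr 2

theorem digitClasses : DigitClasses := by
  intro g hg ε hε
  obtain ⟨r, hr, -, k, N₀, h⟩ := Pool.Agent.Lib.MP_629a14_nt.Lg.classes g hg ε hε
  exact ⟨r, hr, k, N₀, h⟩

/-- The Hardy-Littlewood asymptotics for almost all members of thin families: a criterion, families of small energy,
digit classes. -/
theorem result : Criterion ∧ EnergyFamilies ∧ DigitClasses :=
  ⟨criterion, energyFamilies, digitClasses⟩

end Pool.Agent.Results.MP_629a14_nt.ThinFamilies
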